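import Pool.Agent.Lib.MP_3eb9f6_co.Count

/-!
The degree-restricted upper bound for the order of a graph with given neighbour-locating chromatic
number is attained for all `k ≥ 5` and `3 ≤ Δ ≤ k - 1`.
-/

namespace Pool.Agent.Results.MP_3eb9f6_co.BoundAttained

open Pool.Agent.Lib.MP_3eb9f6_co

/-- `c` is a neighbour-locating colouring of `G` with `k` colours (all of them used): the colour
classes are independent, and two different vertices of the same colour see different sets of
colours in their neighbourhoods. -/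
def IsNLColoring {V : Type*} (G : SimpleGraph V) (k : ℕ) (c : V → Fin k) : Prop :=
  Function.Surjective c ∧ (∀ u v, G.Adj u v → c u ≠ c v) ∧
    ∀ u v, u ≠ v → c u = c v → c '' G.neighborSet u ≠ c '' G.neighborSet v

/-- The neighbour-locating chromatic number: the least number of colours of an NL-colouring. -/
noncomputable def chiNL {V : Type*} (G : SimpleGraph V) : ℕ :=
  sInf {k : ℕ | ∃ c : V → Fin k, IsNLColoring G k c}

/-- The upper bound `B(k, Δ) = ∑_{j=1}^{Δ} k * binom(k-1, j)`. -/
def B (k Δ : ℕ) : ℕ := ∑ j ∈ Finset.Icc 1 Δ, k * (k - 1).choose j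

lemma degree_eq (k Δ : ℕ) (p : Vert k Δ) [Fintype ((sys k Δ).graph.neighborSet p)] :
    (sys k Δ).graph.degree p = p.1.2.card - 1 := by
  rw [← (sys k Δ).ncard_neighborSet p, Set.ncard_eq_toFinset_card']
  rfl

lemma isNL (k Δ : ℕ) (hk : 2 ≤ k) (hΔ : 1 ≤ Δ) :
    IsNLColoring (sys k Δ).graph k (fun p : Vert k Δ => p.1.1) := by
  refine ⟨?_, ?_, ?_⟩
  · intro i
    obtain ⟨j, hj⟩ : ∃ j : Fin k, j ≠ i := by
      by_contra hcon
      push Not at hcon
      have h0 := hcon ⟨0, by omega⟩
      have h1 := hcon ⟨1, by omega⟩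
      rw [← h1] at h0
      simp [Fin.ext_iff] at h0
    refine ⟨⟨(i, {i, j}), ?_⟩, rfl⟩
    have hc : ({i, j} : Finset (Fin k)).card = 2 := Finset.card_pair hj.symm
    exact ⟨by simp, by simp only; omega, by simp only; omega⟩
  · intro u v h
    exact h.1
  · intro u v huv hc hcol
    apply huv
    rw [Sys.image_neighborSet, Sys.image_neighborSet, Finset.coe_inj] at hcol
    simp only at hc
    have h2 : u.1.2 = v.1.2 := by
      have h3 := congrArg (insert u.1.1) hcol
      rw [Finset.insert_erase u.2.1, hc, Finset.insert_erase v.2.1] at h3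
      exact h3
    exact Subtype.ext (Prod.ext hc h2)

/-- Any NL-colouring of the graph uses at least `k` colours. -/
lemma lower (k Δ : ℕ) (hk : 2 ≤ k) (hΔ : 1 ≤ Δ) (k' : ℕ) (c : Vert k Δ → Fin k')
    (hc : IsNLColoring (sys k Δ).graph k' c) : k ≤ k' := by
  classical
  by_contra hlt
  push Not at hlt
  obtain ⟨-, hprop, hloc⟩ := hc
  -- colour set
  set A : Vert k Δ → Finset (Fin k') := fun v =>
    Finset.univ.filter (fun i => i ∈ c '' (sys k Δ).graph.neighborSet v) with hA
  have hAcoe : ∀ v, (A v : Set (Fin k')) = c '' (sys k Δ).graph.neighborSet v := by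
    intro v
    ext i
    simp [hA]
  have hAcard : ∀ v, (A v).card ≤ Δ ∧ 1 ≤ (A v).card := by
    intro v
    have h1 : (A v).card = (c '' (sys k Δ).graph.neighborSet v).ncard := by
      rw [← hAcoe, Set.ncard_coe_finset]
    have h2 : (c '' (sys k Δ).graph.neighborSet v).ncard ≤
        ((sys k Δ).graph.neighborSet v).ncard := Set.ncard_image_le (Set.toFinite _)
    have h3 := (sys k Δ).ncard_neighborSet v
    have h4 := v.2.2
    constructor
    · omega
    · have : ((sys k Δ).graph.neighborSet v).Nonempty :=
        (Set.ncard_pos (Set.toFinite _)).1 (by omega)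
      rw [h1]
      exact (Set.ncard_pos (Set.toFinite _)).2 (this.image c)
  have hAnot : ∀ v, c v ∉ A v := by
    intro v hv
    have : c v ∈ (A v : Set (Fin k')) := hv
    rw [hAcoe] at this
    obtain ⟨w, hw, hw'⟩ := this
    exact hprop v w hw hw'.symm
  let f : Vert k Δ → Vert k' Δ := fun v => ⟨(c v, insert (c v) (A v)), by
    have h1 := hAcard v
    have h2 : (insert (c v) (A v)).card = (A v).card + 1 :=
      Finset.card_insert_of_notMem (hAnot v)
    exact ⟨by simp, by simp only; omega, by simp only; omega⟩⟩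
  have hf : Function.Injective f := by
    intro u v huv
    by_contra hne
    have h1 : c u = c v := congrArg (fun p : Vert k' Δ => p.1.1) huv
    have h2 : insert (c u) (A u) = insert (c v) (A v) :=
      congrArg (fun p : Vert k' Δ => p.1.2) huv
    have h3 : A u = A v := by
      have h4 : (insert (c u) (A u)).erase (c u) = (insert (c v) (A v)).erase (c u) := by rw [h2]
      rw [Finset.erase_insert (hAnot u), h1, Finset.erase_insert (hAnot v)] at h4
      exact h4
    apply hloc u v hne h1
    rw [← hAcoe, ← hAcoe, h3]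
  have hle := Fintype.card_le_of_injective f hf
  rw [card_Vert, card_Vert] at hle
  exact absurd hle (not_le.2 (card_strict hk hΔ hlt))

/-- For all `k ≥ 5` and `3 ≤ Δ ≤ k - 1` there is a connected graph with neighbour-locating
chromatic number `k`, maximum degree `Δ` and exactly `B(k, Δ)` vertices. -/
theorem result (k Δ : ℕ) (hk : 5 ≤ k) (hΔ : 3 ≤ Δ) (hΔk : Δ + 1 ≤ k) :
    ∃ (V : Type) (_ : Fintype V) (G : SimpleGraph V) (_ : DecidableRel G.Adj),
      G.Connected ∧ chiNL G = k ∧ G.maxDegree = Δ ∧ Fintype.card V = B k Δ := by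
  classical
  refine ⟨Vert k Δ, inferInstance, (sys k Δ).graph, Classical.decRel _, connected hk hΔ, ?_, ?_,
    card_Vert k Δ⟩
  · apply le_antisymm
    · exact Nat.sInf_le ⟨_, isNL k Δ (by omega) (by omega)⟩
    · refine le_csInf ⟨k, ⟨_, isNL k Δ (by omega) (by omega)⟩⟩ ?_
      rintro k' ⟨c, hc⟩
      exact lower k Δ (by omega) (by omega) k' c hc
  · apply le_antisymm
    · apply SimpleGraph.maxDegree_le_of_forall_degree_le
      intro p
      rw [degree_eq]
      have := p.2.2
      omega
    · obtain ⟨C, -, hC⟩ := Finset.exists_subset_card_eq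
        (s := (Finset.univ : Finset (Fin k))) (n := Δ + 1) (by simpa using hΔk)
      obtain ⟨x, hx⟩ : C.Nonempty := Finset.card_pos.1 (by omega)
      have hp : Valid Δ (x, C) := ⟨hx, by simp only; omega, by simp only; omega⟩
      have h := SimpleGraph.degree_le_maxDegree (sys k Δ).graph (⟨(x, C), hp⟩ : Vert k Δ)
      rw [degree_eq] at h
      simp only at h
      omega

end Pool.Agent.Results.MP_3eb9f6_co.BoundAttained
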